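import Pool.Agent.W680.WH.Stm

set_option autoImplicit false

open scoped ComplexConjugate InnerProductSpace
open ContinuousLinearMap Filter

/-! Project WHH: the base vector. -/

namespace Pool.Agent.W308.WHHV

open Pool.Agent.W680.WH

noncomputable def A : ℕ → ℝ
  | 0 => 1
  | n + 1 => A n * ((4 * n + 1) / (4 * (n + 1)))

theorem A_bd (n : ℕ) : 0 ≤ A n ∧ A n ≤ 1 := by
  induction n with
  | zero => simp [A]
  | succ n ih =>
    rw [A]
    have h1 : 0 ≤ (4 * (n : ℝ) + 1) / (4 * (n + 1)) := by positivity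
    have h2 : (4 * (n : ℝ) + 1) / (4 * (n + 1)) ≤ 1 := by
      rw [div_le_one (by positivity)]; linarith
    exact ⟨mul_nonneg ih.1 h1, mul_le_one₀ ih.2 h1 h2⟩

/-- the coefficients without signs -/
noncomputable def be (r : ℝ) : ℤ → ℝ
  | Int.ofNat n => A n * r ^ n
  | Int.negSucc _ => 0

theorem be_rec (r : ℝ) (i : ℤ) : 4 * (i : ℝ) * be r i = r * ((4 * (i : ℝ) - 3) * be r (i - 1)) := by
  rcases i with n | n
  · rcases n with _ | n
    · have h1 : (Int.ofNat 0 - 1 : ℤ) = Int.negSucc 0 := rfl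
      rw [h1]
      simp [be]
    · have h1 : (Int.ofNat (n + 1) - 1 : ℤ) = Int.ofNat n := by
        simp
      rw [h1]
      show 4 * (((n + 1 : ℕ) : ℤ) : ℝ) * (A (n + 1) * r ^ (n + 1)) =
        r * ((4 * (((n + 1 : ℕ) : ℤ) : ℝ) - 3) * (A n * r ^ n))
      rw [A]
      push_cast
      field_simp
      ring
  · have h1 : (Int.negSucc n - 1 : ℤ) = Int.negSucc (n + 1) := rfl
    rw [h1]
    simp [be]

section

variable (r : ℝ) (hr0 : 0 ≤ r) (hr1 : r < 1)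
include hr0 hr1

theorem be_nonneg (j : ℤ) : 0 ≤ be r j := by
  rcases j with n | n
  · exact mul_nonneg (A_bd n).1 (pow_nonneg hr0 n)
  · exact le_rfl

theorem be_le (j : ℤ) : be r j ≤ r ^ j.natAbs := by
  rcases j with n | n
  · show A n * r ^ n ≤ r ^ n
    have := (A_bd n).2
    have h := pow_nonneg hr0 n
    nlinarith
  · exact pow_nonneg hr0 _

theorem be_le_one (j : ℤ) : be r j ≤ 1 :=
  (be_le r hr0 hr1 j).trans (pow_le_one₀ hr0 hr1.le)

theorem sumZ (m : ℕ) : Summable (fun j : ℤ => ((j.natAbs : ℕ) : ℝ) ^ m * r ^ j.natAbs) := by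
  have h := summable_pow_mul_geometric_of_norm_lt_one (R := ℝ) m (r := r)
    (by rw [Real.norm_of_nonneg hr0]; exact hr1)
  apply Summable.of_nat_of_neg
  · simpa using h
  · simpa using h

theorem sum0 (k : ℤ) : Summable (fun j : ℤ => be r (k + j) * be r j) := by
  have h := sumZ r hr0 hr1 0
  simp only [pow_zero, one_mul] at h
  refine Summable.of_nonneg_of_le (fun j => mul_nonneg (be_nonneg r hr0 hr1 _)
    (be_nonneg r hr0 hr1 _)) (fun j => ?_) h
  calc be r (k + j) * be r j ≤ 1 * r ^ j.natAbs :=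
        mul_le_mul (be_le_one r hr0 hr1 _) (be_le r hr0 hr1 j) (be_nonneg r hr0 hr1 _) zero_le_one
    _ = _ := one_mul _

theorem sum2 (k : ℤ) : Summable (fun j : ℤ => be r (k + j) * ((j : ℝ) * be r j)) := by
  have h := sumZ r hr0 hr1 1
  simp only [pow_one] at h
  refine Summable.of_norm_bounded h (fun j => ?_)
  rw [norm_mul, norm_mul, Real.norm_of_nonneg (be_nonneg r hr0 hr1 _),
    Real.norm_of_nonneg (be_nonneg r hr0 hr1 _)]
  have h1 : ‖(j : ℝ)‖ = ((j.natAbs : ℕ) : ℝ) := by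
    rw [Real.norm_eq_abs, Nat.cast_natAbs]
    push_cast
    rfl
  rw [h1]
  have h2 : ((j.natAbs : ℕ) : ℝ) * be r j ≤ ((j.natAbs : ℕ) : ℝ) * r ^ j.natAbs :=
    mul_le_mul_of_nonneg_left (be_le r hr0 hr1 j) (by positivity)
  calc be r (k + j) * (((j.natAbs : ℕ) : ℝ) * be r j) ≤
      1 * (((j.natAbs : ℕ) : ℝ) * r ^ j.natAbs) :=
        mul_le_mul (be_le_one r hr0 hr1 _) h2
          (mul_nonneg (by positivity) (be_nonneg r hr0 hr1 _)) zero_le_one
    _ = _ := one_mul _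

theorem sum1 (k : ℤ) :
    Summable (fun j : ℤ => (((k + j : ℤ) : ℝ) * be r (k + j)) * be r j) := by
  have h := ((sum0 r hr0 hr1 k).mul_left (k : ℝ)).add (sum2 r hr0 hr1 k)
  refine h.congr fun j => ?_
  push_cast
  ring

end

/-- autocorrelations -/
noncomputable def ga (r : ℝ) (k : ℤ) : ℝ := ∑' j : ℤ, be r (k + j) * be r j
noncomputable def P (r : ℝ) (k : ℤ) : ℝ := ∑' j : ℤ, (((k + j : ℤ) : ℝ) * be r (k + j)) * be r j
noncomputable def N (r : ℝ) (k : ℤ) : ℝ := ∑' j : ℤ, be r (k + j) * ((j : ℝ) * be r j)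

section

variable (r : ℝ) (hr0 : 0 ≤ r) (hr1 : r < 1)
include hr0 hr1

theorem kga (k : ℤ) : (k : ℝ) * ga r k = P r k - N r k := by
  unfold ga P N
  rw [← (sum1 r hr0 hr1 k).tsum_sub (sum2 r hr0 hr1 k), ← tsum_mul_left]
  apply tsum_congr
  intro j
  push_cast
  ring

theorem P_rec (k : ℤ) : 4 * P r k = r * (4 * P r (k - 1) + ga r (k - 1)) := by
  unfold P ga
  rw [← tsum_mul_left, ← tsum_mul_left,
    ← ((sum1 r hr0 hr1 (k - 1)).mul_left 4).tsum_add (sum0 r hr0 hr1 (k - 1)), ← tsum_mul_left]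
  apply tsum_congr
  intro j
  have h := be_rec r (k + j)
  have h1 : k + j - 1 = k - 1 + j := by ring
  rw [h1] at h
  push_cast at h ⊢
  linear_combination (be r j) * h

theorem N_rec (k : ℤ) : 4 * N r k = r * (4 * N r (k + 1) + ga r (k + 1)) := by
  unfold N ga
  rw [← tsum_mul_left, ← tsum_mul_left,
    ← ((sum2 r hr0 hr1 (k + 1)).mul_left 4).tsum_add (sum0 r hr0 hr1 (k + 1)), ← tsum_mul_left,
    ← (Equiv.addRight (1 : ℤ)).tsum_eq (fun j : ℤ => 4 * (be r (k + j) * ((j : ℝ) * be r j)))]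
  apply tsum_congr
  intro j
  simp only [Equiv.coe_addRight]
  have h := be_rec r (j + 1)
  have h1 : j + 1 - 1 = j := by ring
  have h2 : k + (j + 1) = k + 1 + j := by ring
  rw [h1] at h
  rw [h2]
  push_cast at h ⊢
  linear_combination (be r (k + 1 + j)) * h

theorem ga_rec (k : ℤ) : 4 * (k : ℝ) * (1 + r ^ 2) * ga r k =
    r * ((4 * (k : ℝ) + 3) * ga r (k + 1) + (4 * (k : ℝ) - 3) * ga r (k - 1)) := by
  have e1 := kga r hr0 hr1 k
  have e2 := kga r hr0 hr1 (k + 1)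
  have e3 := kga r hr0 hr1 (k - 1)
  have p1 := P_rec r hr0 hr1 k
  have p2 := P_rec r hr0 hr1 (k + 1)
  have n1 := N_rec r hr0 hr1 k
  have n2 := N_rec r hr0 hr1 (k - 1)
  rw [show k + 1 - 1 = k by ring] at p2
  rw [show k - 1 + 1 = k by ring] at n2
  push_cast at e2 e3
  linear_combination 4 * (1 + r ^ 2) * e1 - 4 * r * e2 - 4 * r * e3 + p1 - r * p2 - n1 + r * n2

theorem ga_symm (k : ℤ) : ga r (-k) = ga r k := by
  unfold ga
  rw [← (Equiv.addRight k).tsum_eq (fun j : ℤ => be r (-k + j) * be r j)]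
  apply tsum_congr
  intro j
  simp only [Equiv.coe_addRight]
  rw [show -k + (j + k) = j by ring, show j + k = k + j by ring, mul_comm]

theorem ga_nonneg (k : ℤ) : 0 ≤ ga r k :=
  tsum_nonneg fun j => mul_nonneg (be_nonneg r hr0 hr1 _) (be_nonneg r hr0 hr1 _)

theorem ga_zero : 0 < ga r 0 := by
  have h := (sum0 r hr0 hr1 0).sum_le_tsum {0} (fun j _ =>
    mul_nonneg (be_nonneg r hr0 hr1 _) (be_nonneg r hr0 hr1 _))
  have h1 : be r 0 = 1 := by
    show A 0 * r ^ 0 = 1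
    simp [A]
  rw [Finset.sum_singleton] at h
  have h2 : be r (0 + 0) * be r 0 = 1 := by rw [add_zero, h1, mul_one]
  rw [h2] at h
  exact lt_of_lt_of_le one_pos h

theorem ga_bound (k : ℤ) : ga r k ≤ (∑' j : ℤ, r ^ j.natAbs) * r ^ k.natAbs := by
  have hs := sumZ r hr0 hr1 0
  simp only [pow_zero, one_mul] at hs
  have key : ∀ m : ℕ, ga r (m : ℤ) ≤ (∑' j : ℤ, r ^ j.natAbs) * r ^ m := by
    intro m
    unfold ga
    rw [← tsum_mul_right]
    refine (sum0 r hr0 hr1 m).tsum_le_tsum (fun j => ?_) (hs.mul_right _)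
    rcases j with n | n
    · have h1 : be r ((m : ℤ) + Int.ofNat n) ≤ r ^ m := by
        refine (be_le r hr0 hr1 _).trans ?_
        apply pow_le_pow_of_le_one hr0 hr1.le
        simp only [Int.ofNat_eq_natCast]
        omega
      have h2 := be_le r hr0 hr1 (Int.ofNat n)
      calc be r ((m : ℤ) + Int.ofNat n) * be r (Int.ofNat n) ≤
          r ^ m * r ^ (Int.ofNat n).natAbs :=
            mul_le_mul h1 h2 (be_nonneg r hr0 hr1 _) (pow_nonneg hr0 _)
        _ = _ := mul_comm _ _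
    · show be r ((m : ℤ) + Int.negSucc n) * 0 ≤ _
      rw [mul_zero]
      positivity
  obtain ⟨m, rfl | rfl⟩ := k.eq_nat_or_neg
  · simpa using key m
  · rw [ga_symm r hr0 hr1]
    simpa using key m

end

theorem om_le (n : ℤ) : om n ≤ 4 * ((n.natAbs : ℕ) : ℝ) + 1 := by
  have key : ∀ m : ℕ, om (m : ℤ) ≤ 4 * (m : ℝ) + 1 := by
    intro m
    induction m with
    | zero => simp [om]
    | succ m ih =>
      have h := om_succ_nat m
      push_cast
      rw [h]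
      have h1 : (0 : ℝ) < 4 * (m : ℝ) + 1 := by positivity
      rw [mul_div_assoc', div_le_iff₀ h1]
      have h2 : om (m : ℤ) * (4 * (m : ℝ) + 3) ≤ (4 * (m : ℝ) + 1) * (4 * (m : ℝ) + 3) :=
        mul_le_mul_of_nonneg_right ih (by positivity)
      nlinarith
  obtain ⟨m, rfl | rfl⟩ := n.eq_nat_or_neg
  · simpa using key m
  · rw [om_neg]
    simpa using key m

/-- the coefficients of the base vector -/
noncomputable def hh (r : ℝ) (k : ℤ) : ℝ :=
  ((4 * (k : ℝ) + 1) * ((-1) ^ k * ga r k) + (4 * (k : ℝ) + 3) * (r * ((-1) ^ (k + 1) * ga r (k + 1)))) /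
    (1 - r ^ 2)

section

variable (r : ℝ) (hr0 : 0 ≤ r) (hr1 : r < 1)
include hr0 hr1

theorem one_sub_pos : 0 < 1 - r ^ 2 := by nlinarith

theorem hh_add (k : ℤ) : hh r k + r * hh r (k - 1) = (-1) ^ k * ga r k := by
  have h := ga_rec r hr0 hr1 k
  have hp := one_sub_pos r hr0 hr1
  unfold hh
  rw [show k - 1 + 1 = k by ring]
  have e1 : (-1 : ℝ) ^ (k + 1) = -(-1) ^ k := by
    rw [zpow_add₀ (by norm_num)]; simp
  have e2 : (-1 : ℝ) ^ (k - 1) = -(-1) ^ k := by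
    rw [zpow_sub₀ (by norm_num), zpow_one, div_neg, div_one]
  rw [e1, e2]
  push_cast
  field_simp
  linear_combination h

theorem hh_rec (k : ℤ) : 4 * (k : ℝ) * hh r k + (4 * (k : ℝ) + 3) * r * hh r (k + 1) +
    (4 * (k : ℝ) + 1) * r * hh r (k - 1) + (4 * (k : ℝ) + 4) * r ^ 2 * hh r k = 0 := by
  have h1 := hh_add r hr0 hr1 k
  have h2 := hh_add r hr0 hr1 (k + 1)
  rw [show k + 1 - 1 = k by ring] at h2
  have hp := one_sub_pos r hr0 hr1
  have h3 : (1 - r ^ 2) * hh r k = (4 * (k : ℝ) + 1) * ((-1) ^ k * ga r k) +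
      (4 * (k : ℝ) + 3) * (r * ((-1) ^ (k + 1) * ga r (k + 1))) := by
    unfold hh
    field_simp
  linear_combination (4 * (k : ℝ) + 1) * h1 + (4 * (k : ℝ) + 3) * r * h2 - h3

theorem hh_bound : ∃ C : ℝ, 0 ≤ C ∧ ∀ k : ℤ,
    |hh r k| ≤ C * (((k.natAbs : ℕ) : ℝ) + 1) * r ^ k.natAbs := by
  have hp := one_sub_pos r hr0 hr1
  set S : ℝ := ∑' j : ℤ, r ^ j.natAbs with hS
  have hS0 : 0 ≤ S := tsum_nonneg fun j => pow_nonneg hr0 _
  refine ⟨8 * S / (1 - r ^ 2), by positivity, fun k => ?_⟩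
  unfold hh
  rw [abs_div, abs_of_pos hp, div_mul_eq_mul_div, div_mul_eq_mul_div]
  apply div_le_div_of_nonneg_right _ hp.le
  have hk : |(k : ℝ)| = ((k.natAbs : ℕ) : ℝ) := by
    rw [Nat.cast_natAbs]; push_cast; rfl
  have g1 := ga_bound r hr0 hr1 k
  have g2 := ga_bound r hr0 hr1 (k + 1)
  have g3 : r * r ^ (k + 1).natAbs ≤ r ^ k.natAbs := by
    rw [← pow_succ']
    apply pow_le_pow_of_le_one hr0 hr1.le
    omega
  have a1 : |(4 * (k : ℝ) + 1)| ≤ 4 * (((k.natAbs : ℕ) : ℝ) + 1) := by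
    rw [← hk]
    calc |4 * (k : ℝ) + 1| ≤ |4 * (k : ℝ)| + |(1 : ℝ)| := abs_add_le _ _
      _ ≤ 4 * (|(k : ℝ)| + 1) := by rw [abs_mul]; norm_num; linarith
  have a2 : |(4 * (k : ℝ) + 3)| ≤ 4 * (((k.natAbs : ℕ) : ℝ) + 1) := by
    rw [← hk]
    calc |4 * (k : ℝ) + 3| ≤ |4 * (k : ℝ)| + |(3 : ℝ)| := abs_add_le _ _
      _ ≤ 4 * (|(k : ℝ)| + 1) := by rw [abs_mul]; norm_num; linarith
  have n1 : ∀ m : ℤ, |(-1 : ℝ) ^ m * ga r m| = ga r m := by
    intro m
    rw [abs_mul, abs_zpow, abs_neg, abs_one, one_zpow, one_mul,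
      abs_of_nonneg (ga_nonneg r hr0 hr1 m)]
  calc |(4 * (k : ℝ) + 1) * ((-1) ^ k * ga r k) +
        (4 * (k : ℝ) + 3) * (r * ((-1) ^ (k + 1) * ga r (k + 1)))| ≤
      |(4 * (k : ℝ) + 1) * ((-1) ^ k * ga r k)| +
        |(4 * (k : ℝ) + 3) * (r * ((-1) ^ (k + 1) * ga r (k + 1)))| := abs_add_le _ _
    _ = |(4 * (k : ℝ) + 1)| * ga r k + |(4 * (k : ℝ) + 3)| * (r * ga r (k + 1)) := by
        rw [abs_mul, n1, abs_mul, abs_mul r, n1, abs_of_nonneg hr0]
    _ ≤ 4 * (((k.natAbs : ℕ) : ℝ) + 1) * (S * r ^ k.natAbs) +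
        4 * (((k.natAbs : ℕ) : ℝ) + 1) * (S * r ^ k.natAbs) := by
        apply add_le_add
        · exact mul_le_mul a1 g1 (ga_nonneg r hr0 hr1 k) (by positivity)
        · apply mul_le_mul a2 _ (mul_nonneg hr0 (ga_nonneg r hr0 hr1 _)) (by positivity)
          calc r * ga r (k + 1) ≤ r * (S * r ^ (k + 1).natAbs) :=
                mul_le_mul_of_nonneg_left g2 hr0
            _ = S * (r * r ^ (k + 1).natAbs) := by ring
            _ ≤ S * r ^ k.natAbs := mul_le_mul_of_nonneg_left g3 hS0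
    _ = 8 * S * (((k.natAbs : ℕ) : ℝ) + 1) * r ^ k.natAbs := by ring

theorem hh_summable : Summable fun n : ℤ => om n * ‖((hh r n : ℝ) : ℂ)‖ ^ 2 := by
  obtain ⟨C, hC0, hC⟩ := hh_bound r hr0 hr1
  have s0 := sumZ r hr0 hr1 0
  have s1 := sumZ r hr0 hr1 1
  have s2 := sumZ r hr0 hr1 2
  have s3 := sumZ r hr0 hr1 3
  have hs := ((((s3.add (s2.mul_left 3)).add (s1.mul_left 3)).add s0).mul_left (4 * C ^ 2))
  refine Summable.of_nonneg_of_le (fun n => by have := om_pos n; positivity) (fun n => ?_) hs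
  rw [Complex.norm_real, Real.norm_eq_abs]
  have h1 := hC n
  have h2 := om_le n
  have h3 : |hh r n| ^ 2 ≤ (C * (((n.natAbs : ℕ) : ℝ) + 1) * r ^ n.natAbs) ^ 2 :=
    pow_le_pow_left₀ (abs_nonneg _) h1 2
  have h4 : (r ^ n.natAbs) ^ 2 ≤ r ^ n.natAbs := by
    have a : r ^ n.natAbs ≤ 1 := pow_le_one₀ hr0 hr1.le
    have b : 0 ≤ r ^ n.natAbs := pow_nonneg hr0 _
    nlinarith
  set x : ℝ := ((n.natAbs : ℕ) : ℝ) with hx
  have hx0 : 0 ≤ x := by positivity
  calc om n * |hh r n| ^ 2 ≤ (4 * x + 1) * (C * (x + 1) * r ^ n.natAbs) ^ 2 :=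
        mul_le_mul h2 h3 (by positivity) (by positivity)
    _ = (4 * x + 1) * (C ^ 2 * (x + 1) ^ 2) * (r ^ n.natAbs) ^ 2 := by ring
    _ ≤ (4 * (x + 1)) * (C ^ 2 * (x + 1) ^ 2) * r ^ n.natAbs := by
        apply mul_le_mul _ h4 (by positivity) (by positivity)
        apply mul_le_mul_of_nonneg_right _ (by positivity)
        linarith
    _ = _ := by ring

end

theorem hv (h1 : S_OPC) : S_HV := by
  intro r hr0 hr1
  obtain ⟨-, cZ, -, cZ2, cadd, csmul, -, -, cext, -, -, -, cex, -⟩ := h1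
  obtain ⟨h, hh_co⟩ := cex (fun n => ((hh r n : ℝ) : ℂ)) (hh_summable r hr0 hr1)
  refine ⟨h, ?_, ga r, ga_nonneg r hr0 hr1, ga_zero r hr0 hr1, ga_symm r hr0 hr1, ?_⟩
  · apply cext
    intro n
    have e1 : Q h = Z h + (-1 : ℂ) • Z2 h := by
      show (Z - Z2) h = _
      rw [neg_one_smul, ← sub_eq_add_neg]; rfl
    have e2 : (Z + (r : ℂ) • (1 : E →L[ℂ] E)) h = Z h + (r : ℂ) • h := rfl
    have e3 : ∀ u : E, ((1 : E →L[ℂ] E) + (r : ℂ) • Z2) u = u + (r : ℂ) • Z2 u := fun u => rfl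
    rw [e1, e2, e3]
    simp only [cadd, csmul, cZ, cZ2, hh_co]
    have h4 := hh_rec r hr0 hr1 (n - 1)
    rw [show n - 1 + 1 = n by ring] at h4
    have h5 : (4 * ((n - 1 : ℤ) : ℂ)) * (hh r (n - 1) : ℂ) +
        (4 * ((n - 1 : ℤ) : ℂ) + 3) * r * (hh r n : ℂ) +
        (4 * ((n - 1 : ℤ) : ℂ) + 1) * r * (hh r (n - 1 - 1) : ℂ) +
        (4 * ((n - 1 : ℤ) : ℂ) + 4) * (r : ℂ) ^ 2 * (hh r (n - 1) : ℂ) = 0 := by
      exact_mod_cast h4
    have h6 : (4 * (n : ℂ) - 1) ≠ 0 := by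
      intro h0
      have h7 : ((4 * n - 1 : ℤ) : ℂ) = 0 := by push_cast; exact h0
      have h8 : (4 * n - 1 : ℤ) = 0 := by exact_mod_cast h7
      omega
    push_cast at h5 ⊢
    field_simp
    linear_combination (-2 : ℂ) * h5
  · intro n
    rw [cadd, csmul, cZ, hh_co, hh_co]
    have h4 := hh_add r hr0 hr1 n
    have h5 : ((hh r n : ℝ) : ℂ) + (r : ℂ) * ((hh r (n - 1) : ℝ) : ℂ) =
        (((-1 : ℝ) ^ n * ga r n : ℝ) : ℂ) := by
      rw [← h4]
      push_cast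
      ring
    rw [h5]
    push_cast
    rfl

end Pool.Agent.W308.WHHV
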